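import Mathlib
import Pool.Agent.Lib.MP_fdcb14_pr.W.Interfaces
import Pool.Agent.Lib.MP_fdcb14_pr.W.Base

/-!
# MP_fdcb14_pr: extinction in a ball (module SLAB, section 3 of Paper.md)
-/

namespace Pool.Agent.Lib.MP_fdcb14_pr.H78

open Pool.Agent.Lib.MP_fdcb14_pr Classical MeasureTheory ProbabilityTheory

/-! ### Finite expectations -/

section expect

variable {G : Type}

theorem sum_pr (ε : ℝ) : ∑ x : Err, pr ε x = 1 := by
  have h : (Finset.univ : Finset Err) = {Err.keep, Err.zero, Err.one} := rfl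
  rw [h, Finset.sum_insert (by decide), Finset.sum_insert (by decide), Finset.sum_singleton]
  simp only [pr]
  ring

theorem pr_nonneg {ε : ℝ} (h0 : 0 ≤ ε) (h1 : ε ≤ 1 / 2) (x : Err) : 0 ≤ pr ε x := by
  cases x
  · simp only [pr]; linarith
  · exact h0
  · exact h0

theorem ex_mass (ε : ℝ) (Z : Finset G) :
    ∑ e : (Z → Err), ∏ v : Z, pr ε (e v) = 1 := by
  have h := Finset.prod_univ_sum (fun _ : Z => (Finset.univ : Finset Err)) (fun _ x => pr ε x)
  rw [Fintype.piFinset_univ] at h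
  rw [← h]
  apply Finset.prod_eq_one
  intro v _
  exact sum_pr ε

theorem ex_const_add (ε : ℝ) (Z : Finset G) (c : ℝ) (f : (G → Err) → ℝ) :
    Ex ε Z (fun η => c + f η) = c + Ex ε Z f := by
  unfold Ex
  have h1 : ∀ e : (Z → Err), (∏ v : Z, pr ε (e v)) * (c + f (ext Z e)) =
      (∏ v : Z, pr ε (e v)) * c + (∏ v : Z, pr ε (e v)) * f (ext Z e) := fun e => mul_add _ _ _
  rw [Finset.sum_congr rfl (fun e _ => h1 e), Finset.sum_add_distrib, ← Finset.sum_mul, ex_mass,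
    one_mul]

theorem ex_mono {ε : ℝ} (h0 : 0 ≤ ε) (h1 : ε ≤ 1 / 2) (Z : Finset G) {f f' : (G → Err) → ℝ}
    (h : ∀ η, f η ≤ f' η) : Ex ε Z f ≤ Ex ε Z f' := by
  unfold Ex
  apply Finset.sum_le_sum
  intro e _
  exact mul_le_mul_of_nonneg_left (h _) (Finset.prod_nonneg (fun v _ => pr_nonneg h0 h1 _))

end expect

/-! ### The machine of a ball -/

section machine

variable {G : Type} [AddCommGroup G]

/-- A line is finished. -/
def Dn (m : ℕ) (D : Set ℤ) : Prop := ∀ i ∈ D, i ≤ -(m : ℤ)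

/-- Unfinished states. -/
def Un (M m : ℕ) (x : ℕ × Set ℤ) : Prop := x.1 < M ∧ ¬ Dn m x.2

/-- The machine. -/
noncomputable def mac (M m : ℕ) (z : ℕ → G) (upd : Set ℤ → (G → Err) → Set ℤ)
    (x : ℕ × Set ℤ) (η : G → Err) : ℕ × Set ℤ :=
  if Un M m x then
    (if Dn m (upd x.2 (fun w => η (z x.1 + w))) then (x.1 + 1, Set.Iic 0)
      else (x.1, upd x.2 (fun w => η (z x.1 + w))))
  else x

/-- The Lyapunov function. -/
noncomputable def lya (M m : ℕ) (c : ℝ) (Gf : Set ℤ → ℝ) (x : ℕ × Set ℤ) : ℝ :=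
  if Un M m x then ((M : ℝ) - x.1 - 1) * c + Gf x.2 else 0

theorem not_dn_Iic {m : ℕ} (hm : 1 ≤ m) : ¬ Dn m (Set.Iic 0) := by
  intro h
  have := h 0 (Set.mem_Iic.2 le_rfl)
  omega

theorem lya_nonneg {M m : ℕ} {c : ℝ} (hc : 0 ≤ c) {Gf : Set ℤ → ℝ} (hG : ∀ D, 0 ≤ Gf D)
    (x : ℕ × Set ℤ) : 0 ≤ lya M m c Gf x := by
  unfold lya
  split_ifs with h
  · have h1 : (x.1 : ℝ) + 1 ≤ M := by exact_mod_cast h.1
    have h2 : 0 ≤ ((M : ℝ) - x.1 - 1) * c := mul_nonneg (by linarith) hc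
    linarith [hG x.2]
  · exact le_rfl

theorem lya_le {M m : ℕ} {c : ℝ} (hc : 0 ≤ c) {Gf : Set ℤ → ℝ} (hG : ∀ D, Gf D ≤ c)
    (x : ℕ × Set ℤ) : lya M m c Gf x ≤ M * c := by
  unfold lya
  split_ifs with h
  · have h1 : (0 : ℝ) ≤ x.1 := Nat.cast_nonneg _
    have h2 := hG x.2
    have h3 : 0 ≤ (x.1 : ℝ) * c := mul_nonneg h1 hc
    nlinarith
  · exact mul_nonneg (Nat.cast_nonneg _) hc

theorem lya_mac {M m : ℕ} {z : ℕ → G} {upd : Set ℤ → (G → Err) → Set ℤ} {c : ℝ} (hc : 0 ≤ c)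
    {Gf : Set ℤ → ℝ} (hG0 : ∀ D, 0 ≤ Gf D) (hG : ∀ D, Gf D ≤ c) {x : ℕ × Set ℤ}
    (hx : Un M m x) (η : G → Err) :
    lya M m c Gf (mac M m z upd x η) ≤
      ((M : ℝ) - x.1 - 1) * c + Gf (upd x.2 (fun w => η (z x.1 + w))) := by
  have h1 : (x.1 : ℝ) + 1 ≤ M := by exact_mod_cast hx.1
  have h2 : 0 ≤ ((M : ℝ) - x.1 - 1) * c := mul_nonneg (by linarith) hc
  have h0 := hG0 (upd x.2 (fun w => η (z x.1 + w)))
  unfold mac
  rw [if_pos hx]
  split_ifs with hd
  · unfold lya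
    split_ifs with h3
    · have h4 := hG (Set.Iic 0)
      push_cast
      have h5 : ((M : ℝ) - (x.1 + 1) - 1) * c = ((M : ℝ) - x.1 - 1) * c - c := by ring
      show ((M : ℝ) - (x.1 + 1) - 1) * c + Gf (Set.Iic 0) ≤ _
      rw [h5]
      linarith
    · linarith
  · unfold lya
    split_ifs with h3
    · exact le_rfl
    · linarith

theorem mac_congr {M m : ℕ} {z : ℕ → G} {upd : Set ℤ → (G → Err) → Set ℤ} {Z : Finset G}
    (hZ : ∀ D η η', (∀ w ∈ Z, η w = η' w) → upd D η = upd D η') (x : ℕ × Set ℤ)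
    (η η' : G → Err)
    (h : ∀ w ∈ (Finset.range M).biUnion (fun j => Z.map (addLeftEmbedding (z j))), η w = η' w) :
    mac M m z upd x η = mac M m z upd x η' := by
  unfold mac
  by_cases hx : Un M m x
  · have h1 : upd x.2 (fun w => η (z x.1 + w)) = upd x.2 (fun w => η' (z x.1 + w)) := by
      apply hZ
      intro w hw
      apply h
      rw [Finset.mem_biUnion]
      exact ⟨x.1, Finset.mem_range.2 hx.1, Finset.mem_map.2 ⟨w, hw, rfl⟩⟩
    rw [if_pos hx, if_pos hx, h1]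
  · rw [if_neg hx, if_neg hx]

theorem mac_absorb {M m : ℕ} {z : ℕ → G} {upd : Set ℤ → (G → Err) → Set ℤ} (x : ℕ × Set ℤ)
    (η : G → Err) (h : ¬ Un M m x) : ¬ Un M m (mac M m z upd x η) := by
  unfold mac
  rw [if_neg h]
  exact h

/-- The drift of the Lyapunov function. -/
theorem drift (h3 : EXSUB_S) (h4 : EXSHIFT_S) {M m : ℕ} {z : ℕ → G}
    {upd : Set ℤ → (G → Err) → Set ℤ} {Gf : Set ℤ → ℝ} {Z : Finset G} {c δ ε : ℝ} (hc : 0 ≤ c)
    (h0 : 0 ≤ ε) (h1 : ε ≤ 1 / 2)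
    (hZ : ∀ D η η', (∀ w ∈ Z, η w = η' w) → upd D η = upd D η')
    (hG0 : ∀ D, 0 ≤ Gf D) (hG : ∀ D, Gf D ≤ c)
    (hdr : ∀ D : Set ℤ, ¬ Dn m D → Ex ε Z (fun η => Gf (upd D η)) ≤ Gf D - δ)
    (x : ℕ × Set ℤ) (hx : Un M m x) :
    Ex ε ((Finset.range M).biUnion (fun j => Z.map (addLeftEmbedding (z j))))
      (fun η => lya M m c Gf (mac M m z upd x η)) ≤ lya M m c Gf x - δ := by
  set Z' := (Finset.range M).biUnion (fun j => Z.map (addLeftEmbedding (z j))) with hZ'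
  have e1 : Ex ε Z' (fun η => lya M m c Gf (mac M m z upd x η)) ≤
      Ex ε Z' (fun η => ((M : ℝ) - x.1 - 1) * c + Gf (upd x.2 (fun w => η (z x.1 + w)))) :=
    ex_mono h0 h1 Z' (fun η => lya_mac hc hG0 hG hx η)
  have e2 : Ex ε Z' (fun η => Gf (upd x.2 (fun w => η (z x.1 + w)))) =
      Ex ε (Z.map (addLeftEmbedding (z x.1)))
        (fun η => Gf (upd x.2 (fun w => η (z x.1 + w)))) := by
    apply h3 G ε Z' (Z.map (addLeftEmbedding (z x.1)))
    · intro w hw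
      rw [hZ', Finset.mem_biUnion]
      exact ⟨x.1, Finset.mem_range.2 hx.1, hw⟩
    · intro η η' h
      have h5 : upd x.2 (fun w => η (z x.1 + w)) = upd x.2 (fun w => η' (z x.1 + w)) := by
        apply hZ
        intro w hw
        apply h
        exact Finset.mem_map.2 ⟨w, hw, rfl⟩
      rw [h5]
  have e3 := h4 G ε Z (z x.1) (fun η => Gf (upd x.2 η))
  have e4 := hdr x.2 hx.2
  have e5 := ex_const_add ε Z' (((M : ℝ) - x.1 - 1) * c)
    (fun η => Gf (upd x.2 (fun w => η (z x.1 + w))))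
  have e6 : lya M m c Gf x = ((M : ℝ) - x.1 - 1) * c + Gf x.2 := by
    unfold lya
    rw [if_pos hx]
  rw [e5, e2] at e1
  rw [e6]
  have e3' : Ex ε (Z.map (addLeftEmbedding (z x.1)))
      (fun η => Gf (upd x.2 (fun w => η (z x.1 + w)))) = Ex ε Z (fun η => Gf (upd x.2 η)) := e3
  rw [e3'] at e1
  linarith

end machine

/-! ### The deterministic part -/

section det

variable {G : Type} [AddCommGroup G]

/-- Multiples of `g` are distinct. -/
theorem zsmul_inj {ι : Type} [Fintype ι] {S : Finset G} {ψ : ι → G →+ ℤ} {ρ : ℕ}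
    (hF : Funs S ψ ρ) {g : G} (hg : g ≠ 0) {i j : ℤ} (h : i • g = j • g) : i = j := by
  by_contra hij
  apply hg
  apply hF.inj
  intro a
  have h1 : ψ a (i • g) = ψ a (j • g) := by rw [h]
  rw [map_zsmul, map_zsmul, smul_eq_mul, smul_eq_mul] at h1
  have h2 : (i - j) * ψ a g = 0 := by linarith
  rcases mul_eq_zero.1 h2 with h3 | h3
  · exact absurd (by omega : i = j) hij
  · exact h3

/-- The facts on the stages that are used. -/
structure Stg {ι : Type} (S : Finset G) (k : ℕ) (ψ : ι → G →+ ℤ) (φ : G →+ ℤ) (g : G)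
    (u : G) (R M : ℕ) (D : ℕ → Set G) (z : ℕ → G) : Prop where
  zero : D 0 = ball ψ u R
  last : D M = ∅
  step : ∀ j < M, D (j + 1) ⊆ D j ∧ (∀ w ∈ D j, φ w ≤ φ (z j)) ∧
        (∀ w ∈ D j, w ∉ D (j + 1) → ∃ i : ℤ, -(2 * R + 1 : ℤ) < i ∧ i ≤ 0 ∧ w = z j + i • g) ∧
        (∀ w ∈ D (j + 1), ∀ i : ℤ, w ≠ z j + i • g)
  rob : ∀ j ≤ M, ∀ lo hi : ι → ℤ, Robust S k (D j ∩ box ψ lo hi)

/-- The invariant of the run. -/
structure Inv (m M : ℕ) (D : ℕ → Set G) (z : ℕ → G) (g : G) (x : ℕ × Set ℤ) (B Y : Set G) :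
    Prop where
  le : x.1 ≤ M
  nd : x.1 < M → ¬ Dn m x.2
  sub : Y ⊆ D x.1 ∩ B
  lin : x.1 < M → ∀ i : ℤ, z x.1 + i • g ∈ Y → i ∈ x.2

/-- Sites of the line in the stage have index at most `0` and more than `-m`. -/
theorem idx {ι : Type} [Fintype ι] {S : Finset G} {k : ℕ} {ψ : ι → G →+ ℤ} {ρ : ℕ}
    {φ : G →+ ℤ} {g : G} {u : G} {R M : ℕ} {D : ℕ → Set G} {z : ℕ → G}
    (hF : Funs S ψ ρ) (hg : g ≠ 0) (hs : Stg S k ψ φ g u R M D z) {j : ℕ} (hj : j < M) {i : ℤ}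
    (h : z j + i • g ∈ D j) : -(2 * R + 1 : ℤ) < i ∧ i ≤ 0 := by
  have h1 : z j + i • g ∉ D (j + 1) := fun h2 => (hs.step j hj).2.2.2 _ h2 i rfl
  obtain ⟨i', h3, h4, h5⟩ := (hs.step j hj).2.2.1 _ h h1
  have h6 : i • g = i' • g := add_left_cancel h5
  rw [zsmul_inj hF hg h6]
  exact ⟨h3, h4⟩

theorem inv_step {ι : Type} [Fintype ι] {S : Finset G} {k : ℕ} {ψ : ι → G →+ ℤ} {ρ : ℕ}
    {φ : G →+ ℤ} {g : G} {u : G} {R M : ℕ} {D : ℕ → Set G} {z : ℕ → G}
    (hF : Funs S ψ ρ) (hg : g ≠ 0) (hline : ∀ s ∈ S, φ s = 0 → ∃ j : ℤ, s = j • g)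
    (hphig : φ g = 0)
    (hs : Stg S k ψ φ g u R M D z) {upd : Set ℤ → (G → Err) → Set ℤ}
    (hupd : ∀ (D : Set ℤ) (η η' : G → Err) (Y : Set G), Le η' η →
      (∀ (i : ℤ), ∀ s ∈ S, i • g + s ∈ Y → (φ s < 0 ∨ ∃ i' ∈ D, i • g + s = i' • g)) →
      ∀ i : ℤ, i ≤ 0 → cnt S (ones η') (i • g) ≤ 1 → k + 1 ≤ cnt S (act η' Y) (i • g) →
        i ∈ upd D η) (lo hi : ι → ℤ) {x : ℕ × Set ℤ} {Y : Set G}
    (hI : Inv (2 * R + 1) M D z g x (box ψ lo hi) Y) {η η' : G → Err} (hle : Le η' η)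
    (hseed : ∀ v ∈ box ψ lo hi, ¬ Seed S η' v) :
    Inv (2 * R + 1) M D z g (mac M (2 * R + 1) z upd x η) (box ψ lo hi)
      (nxt S k (box ψ lo hi) η' Y) := by
  have hsub : nxt S k (box ψ lo hi) η' Y ⊆ D x.1 ∩ box ψ lo hi := by
    intro v hv
    rcases nxt_subset_of_robust (hs.rob x.1 hI.le lo hi) (box ψ lo hi) η' hI.sub hv with h | h
    · exact h
    · exact absurd h (hseed v hv.1)
  by_cases hx : Un M (2 * R + 1) x
  · -- the line clause of the new state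
    have hnew : ∀ i : ℤ, z x.1 + i • g ∈ nxt S k (box ψ lo hi) η' Y →
        i ∈ upd x.2 (fun w => η (z x.1 + w)) := by
      intro i hi'
      have h1 := hsub hi'
      have h2 := idx hF hg hs hx.1 h1.1
      apply hupd x.2 (fun w => η (z x.1 + w)) (fun w => η' (z x.1 + w)) {w | z x.1 + w ∈ Y}
      · exact ⟨fun w h => hle.1 _ h, fun w h => hle.2 _ h⟩
      · intro i' s hs' h3
        have h3' : z x.1 + (i' • g + s) ∈ Y := h3
        have h4 := (hs.step x.1 hx.1).2.1 _ (hI.sub h3').1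
        rw [map_add, map_add, map_zsmul, hphig, smul_zero, zero_add] at h4
        by_cases h5 : φ s = 0
        · right
          obtain ⟨j, hj⟩ := hline s hs' h5
          refine ⟨i' + j, ?_, ?_⟩
          · apply hI.lin hx.1
            rw [add_smul, ← hj]
            exact h3'
          · rw [add_smul, ← hj]
        · left
          omega
      · exact h2.2
      · have h3 : cnt S (ones (fun w => η' (z x.1 + w))) (i • g) =
            cnt S (ones η') (z x.1 + i • g) := cnt_shift S (ones η') (z x.1) (i • g)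
        rw [h3]
        have h4 : ¬ 2 ≤ cnt S (ones η') (z x.1 + i • g) := hseed _ hi'.1
        omega
      · have h3 : cnt S (act (fun w => η' (z x.1 + w)) {w | z x.1 + w ∈ Y}) (i • g) =
            cnt S (act η' Y) (z x.1 + i • g) := cnt_shift S (act η' Y) (z x.1) (i • g)
        rw [h3]
        exact hi'.2
    unfold mac
    rw [if_pos hx]
    split_ifs with hd
    · -- the line is finished
      have h1 : nxt S k (box ψ lo hi) η' Y ⊆ D (x.1 + 1) ∩ box ψ lo hi := by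
        intro v hv
        refine ⟨?_, hv.1⟩
        by_contra hcon
        obtain ⟨i, h2, h3, h4⟩ := (hs.step x.1 hx.1).2.2.1 v (hsub hv).1 hcon
        have h5 := hd i (hnew i (h4 ▸ hv))
        push_cast at h5
        omega
      refine ⟨hx.1, fun _ => not_dn_Iic (by omega), h1, ?_⟩
      intro hlt i hi'
      have h2 := idx hF hg hs hlt (h1 hi').1
      exact h2.2
    · exact ⟨hI.le, fun _ => hd, hsub, fun _ => hnew⟩
  · have h1 : ¬ x.1 < M := fun h => hx ⟨h, hI.nd h⟩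
    unfold mac
    rw [if_neg hx]
    exact ⟨hI.le, fun h => absurd h h1, hsub, fun h => absurd h h1⟩

end det

/-! ### The theorem -/

theorem slab.{u} (h1 : STAGES_S) (h2 : RUN_S.{u}) (h3 : EXSUB_S) (h4 : EXSHIFT_S) :
    SLAB_S.{u} := by
  intro G _ ι _ _ S k ψ ρ φ g K hS hF hphig hg hker hline hK hmach R ε hε0 hKε hε l0 hl0 q u
  obtain ⟨M, D, z, hM, hD0, hDM, hstep, hrob⟩ :=
    h1 G ι S k ψ ρ φ g hS hF hphig hg hker hline u R
  have hs : Stg S k ψ φ g u R M D z := ⟨hD0, hDM, hstep, hrob⟩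
  obtain ⟨upd, Gf, Z, hZ, hupd, hGf, hdr⟩ := hmach (2 * R + 1) (by omega)
  have hKpos : (0 : ℝ) < K := by exact_mod_cast (by omega : 0 < K)
  have hm : ((2 * R + 1 : ℕ) : ℝ) = 2 * R + 1 := by push_cast; ring
  set c : ℝ := K * ((2 * R + 1 : ℕ) : ℝ) ^ 2 with hc
  have hc0 : 0 ≤ c := by positivity
  have hdr' : ∀ D : Set ℤ, ¬ Dn (2 * R + 1) D →
      Ex ε Z (fun η => Gf (upd D η)) ≤ Gf D - ε / K := by
    intro D hD
    exact hdr ε hε0 (by rw [hc, hm]; exact hKε) D hD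
  have hG0 : ∀ D, 0 ≤ Gf D := fun D => (hGf D).1
  have hG1 : ∀ D, Gf D ≤ c := fun D => (hGf D).2
  refine ⟨fun ξ => ¬ Un M (2 * R + 1)
    (run (mac M (2 * R + 1) z upd) (0, Set.Iic 0) ξ (q * l0)), ?_, ?_⟩
  · -- the deterministic part
    intro ξ ξ' hle hsucc lo hi hbox hseed
    have hinv : ∀ t ≤ q * l0, Inv (2 * R + 1) M D z g
        (run (mac M (2 * R + 1) z upd) (0, Set.Iic 0) ξ t) (box ψ lo hi)
        (evo S k (box ψ lo hi) ξ' (box ψ lo hi) t) := by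
      intro t
      induction t with
      | zero =>
        intro _
        refine ⟨Nat.zero_le _, fun _ => not_dn_Iic (by omega), ?_, ?_⟩
        · intro v hv
          refine ⟨?_, hv⟩
          show v ∈ D 0
          rw [hD0]
          exact hbox hv
        · intro hlt i hi'
          have h5 : z 0 + i • g ∈ D 0 := by
            rw [hD0]
            exact hbox hi'
          exact (idx hF hg hs hlt h5).2
      | succ t ih =>
        intro ht
        exact inv_step hF hg hline hphig hs hupd lo hi (ih (by omega)) (hle t)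
          (hseed t (by omega))
    have h5 := hinv (q * l0) le_rfl
    have h6 : (run (mac M (2 * R + 1) z upd) (0, Set.Iic 0) ξ (q * l0)).1 = M := by
      by_contra h7
      have h8 : (run (mac M (2 * R + 1) z upd) (0, Set.Iic 0) ξ (q * l0)).1 < M :=
        lt_of_le_of_ne h5.le h7
      exact hsucc ⟨h8, h5.nd h8⟩
    have h7 := h5.sub
    rw [h6, hDM, Set.empty_inter] at h7
    exact Set.subset_empty_iff.1 h7
  · -- the probability
    intro Ω _ μ _ ξ hξ t0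
    have hV : ∀ x : ℕ × Set ℤ, 0 ≤ lya M (2 * R + 1) c Gf x ∧
        (Un M (2 * R + 1) x → lya M (2 * R + 1) c Gf x ≤ M * c) :=
      fun x => ⟨lya_nonneg hc0 hG0 x, fun _ => lya_le hc0 hG1 x⟩
    have hbound : 2 * ((M : ℝ) * c) / (ε / K) ≤ l0 := by
      refine le_trans ?_ hl0
      have hM' : (M : ℝ) ≤ (2 * R + 1 : ℝ) ^ Fintype.card ι := by
        have : (M : ℝ) ≤ (((2 * R + 1) ^ Fintype.card ι : ℕ) : ℝ) := by exact_mod_cast hM
        refine le_trans this (le_of_eq ?_)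
        push_cast
        rfl
      have e1 : 2 * ((M : ℝ) * c) / (ε / K) =
          (2 * K ^ 2 * (2 * R + 1 : ℝ) ^ 2 / ε) * M := by
        rw [hc, hm]
        field_simp
      have e2 : 2 * K ^ 2 * (2 * R + 1 : ℝ) ^ (Fintype.card ι) * (2 * R + 1 : ℝ) ^ 2 / ε =
          (2 * K ^ 2 * (2 * R + 1 : ℝ) ^ 2 / ε) * (2 * R + 1 : ℝ) ^ (Fintype.card ι) := by
        ring
      rw [e1, e2]
      apply mul_le_mul_of_nonneg_left hM'
      positivity
    have h5 := h2 G (ℕ × Set ℤ) (mac M (2 * R + 1) z upd) (Un M (2 * R + 1))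
      (lya M (2 * R + 1) c Gf)
      ((Finset.range M).biUnion (fun j => Z.map (addLeftEmbedding (z j)))) ε (ε / K) (M * c)
      hε0 hε (by positivity) hV (fun x η η' h => mac_congr hZ x η η' h)
      (fun x η h => mac_absorb x η h)
      (fun x hx => drift h3 h4 hc0 hε0.le hε hZ hG0 hG1 hdr' x hx) l0 q hbound (0, Set.Iic 0)
      Ω μ ξ hξ t0
    refine le_trans (le_of_eq ?_) h5
    congr 1
    ext ω
    simp only [Set.mem_ofPred_eq, not_not]

end Pool.Agent.Lib.MP_fdcb14_pr.H78
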